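import Pool.Agent.H16.GZ.Targets4

/-!
Row ENZ of the board gz: the energy on the part of the domain where all gaps are bounded.
-/

set_option autoImplicit false

namespace Pool.Agent.H49.GZ

open MeasureTheory Pool.Agent.H34.GM Pool.Agent.H34.GZ

/-- the kernel vanishes when the class is not invertible -/
private lemma enz_P0 (hA : T_ALZ) (m q : ℕ) [NeZero q] (h1 : 1 ≤ m) (h2 : 2 ≤ q) (y : ℝ)
    (g h : Mat m) (x w : RM m q) (hx : ¬ IsUnit x) : Pz y g x h w = 0 := by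
  obtain ⟨_, _, _, _, _, hu, _⟩ := hA m q h1 h2
  unfold Pz
  rw [ENNReal.tsum_eq_zero]
  intro α
  rw [if_neg]
  rintro ⟨ha, hb, _⟩
  rw [← ha] at hb
  exact hx ((hu _ _).1 hb).2

private lemma enz_PP0 (hA : T_ALZ) (m q : ℕ) [NeZero q] (h1 : 1 ≤ m) (h2 : 2 ≤ q) (D : Set (V m))
    (y : ℝ) (g k : Mat m) (x z : RM m q) (hx : ¬ IsUnit x) : PPz D y g x k z = 0 := by
  unfold PPz
  have h3 : ∀ h : V m, ∑ w : RM m q, Pz y g x (mt h) w * Pz y (mt h) w k z = 0 := fun h =>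
    Finset.sum_eq_zero fun w _ => by rw [enz_P0 hA m q h1 h2 y g (mt h) x w hx, zero_mul]
  simp only [h3, lintegral_zero]

private lemma enz_det (m : ℕ) (h1 : 1 ≤ m) (z : Mat m) (h : 1 ≤ aN z) : z.det ≠ 0 := by
  intro h0
  unfold aN at h
  have hm : (1 / (m : ℝ)) ≠ 0 := by
    have : (0 : ℝ) < m := by exact_mod_cast h1
    positivity
  rw [h0, abs_zero, Real.zero_rpow hm] at h
  linarith

private lemma enz_skw {m : ℕ} (a : Fin m → ℝ) (ha : ∀ i, 0 < a i) : 0 < skw a := by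
  unfold skw
  refine Finset.prod_pos fun i _ => Finset.prod_pos fun j _ => ?_
  split_ifs
  · exact div_pos (ha j) (ha i)
  · exact one_pos

/-- the bound at one point, with one system of Siegel data -/
private lemma enz_pt (hA : T_ALZ) (hEIN : T_EIN) (hSEX : T_SEX) (m : ℕ) (h1 : 1 ≤ m)
    (C1 C2 C0 C3 : ℝ) (K3 : ℕ) (hC1 : 0 < C1) (hC2 : 0 < C2) (hC3 : 0 < C3)
    (q : ℕ) [NeZero q] (D : Set (V m)) (h2 : 2 ≤ q) (hD : DomZ m D)
    (H1 : ∀ y : ℝ, 0 < y → ∀ (g k : Mat m) (x z : RM m q), g.det ≠ 0 → k.det ≠ 0 →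
      PPz D y g x k z ≤ ENNReal.ofReal C1 * Kz y g x k z)
    (H2 : ∀ y : ℝ, 0 < y →
      ∀ (b n : Mat m) (a : Fin m → ℝ) (k : Mat m), Sgl b n a k →
      ∀ (sel : AddSubgroup (Fin m → ℤ) → ZM m) (vs : AddSubgroup (Fin m → ℤ) → Fin m → ℝ),
      Sel b sel vs → ∀ x : RM m q, IsUnit x →
      ∫⁻ h in D, ∑ z : RM m q, (Kz y b x (mt h) z) ^ 2 ∂(hm m) ≤
      ENNReal.ofReal C2 * (∑' L : AddSubgroup (Fin m → ℤ),
        open Classical in (if y ^ 2 / 4 < (L.index : ℝ) ∧ (L.index : ℝ) ≤ y ^ 2 then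
          (NL (sel L) : ENNReal) ^ 2 * ENNReal.ofReal (∏ i, ∏ j, (1 + C0 * vs L i / (q * a j)))
            else 0)))
    (H3 : ∀ (b n : Mat m) (a : Fin m → ℝ) (k : Mat m), Sgl b n a k →
      1 ≤ aN b → aN b < Real.exp 1 → ∀ Y : ℝ, 1 ≤ Y →
      (∀ i j : Fin m, (i : ℕ) + 1 = j → a j ≤ Y * a i) → ∀ y : ℝ, 1 ≤ y →
      ∀ (sel : AddSubgroup (Fin m → ℤ) → ZM m) (vs : AddSubgroup (Fin m → ℤ) → Fin m → ℝ),
      Sel b sel vs →
      (∑' L : AddSubgroup (Fin m → ℤ),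
        open Classical in (if y ^ 2 / 4 < (L.index : ℝ) ∧ (L.index : ℝ) ≤ y ^ 2 then
          (NL (sel L) : ENNReal) ^ 2 * ENNReal.ofReal (∏ i, ∏ j, (1 + C0 * vs L i / (q * a j)))
            else 0)) ≤
      ENNReal.ofReal (C3 * (1 + Real.log (y * Y)) ^ K3 * y ^ (2 * m) *
        (1 + y ^ 2 / (q : ℝ) ^ m) ^ m * skw a))
    (y Y : ℝ) (hy : 1 ≤ y) (hY : 2 ≤ Y) (g : V m) (hg : g ∈ DY D Y) (γ : ZM m) (hγ : IsUnit γ)
    (n : Mat m) (a : Fin m → ℝ) (k : Mat m) (hS : Sgl (cR γ * mt g) n a k) :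
    Ez q D y (mt g) ≤ ENNReal.ofReal ((q : ℝ) ^ (m ^ 2) * (C1 ^ 2 * (C2 *
      (C3 * (1 + Real.log (y * Y)) ^ K3 * y ^ (2 * m) * (1 + y ^ 2 / (q : ℝ) ^ m) ^ m)))) *
        ENNReal.ofReal (skw a) := by
  obtain ⟨⟨_, hA2⟩, _, hcard, _, hunit, _, _⟩ := hA m q h1 h2
  have hsh := hD.shell g hg.1
  have hgd : (mt g).det ≠ 0 := enz_det m h1 _ hsh.1
  have hγd : |(cR γ).det| = 1 := by
    rw [(hA2 γ).2, (hunit γ).1 hγ]
    norm_num
  set b : Mat m := cR γ * mt g with hb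
  have hbd : |b.det| = |(mt g).det| := by
    rw [hb, Matrix.det_mul, abs_mul, hγd, one_mul]
  have hbd0 : b.det ≠ 0 := by
    rw [← abs_ne_zero, hbd, abs_ne_zero]
    exact hgd
  have hbN : aN b = aN (mt g) := by
    unfold aN
    rw [hbd]
  have hlog : 0 ≤ Real.log (y * Y) := Real.log_nonneg (by nlinarith)
  have hy0 : 0 < y := by linarith
  set E : ℝ := C3 * (1 + Real.log (y * Y)) ^ K3 * y ^ (2 * m) * (1 + y ^ 2 / (q : ℝ) ^ m) ^ m
    with hE
  have hE0 : 0 ≤ E := by positivity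
  have hsk : 0 < skw a := enz_skw a hS.pos
  obtain ⟨sel, vs, hsel⟩ := hSEX m b hbd0
  rw [← hEIN m q D y γ (mt g) h1 h2 hγ]
  have hx : ∀ x : RM m q, ∫⁻ k in D, ∑ z : RM m q, (PPz D y b x (mt k) z) ^ 2 ∂(hm m) ≤
      ENNReal.ofReal (C1 ^ 2 * (C2 * (E * skw a))) := by
    intro x
    by_cases hxu : IsUnit x
    · calc ∫⁻ k in D, ∑ z : RM m q, (PPz D y b x (mt k) z) ^ 2 ∂(hm m)
          ≤ ∫⁻ k in D, ENNReal.ofReal (C1 ^ 2) *
              ∑ z : RM m q, (Kz y b x (mt k) z) ^ 2 ∂(hm m) := by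
            refine setLIntegral_mono' hD.meas fun k' hk' => ?_
            rw [Finset.mul_sum]
            refine Finset.sum_le_sum fun z _ => ?_
            have hk'd : (mt k').det ≠ 0 := enz_det m h1 _ (hD.shell k' hk').1
            have h3 := H1 y hy0 b (mt k') x z hbd0 hk'd
            calc (PPz D y b x (mt k') z) ^ 2
                ≤ (ENNReal.ofReal C1 * Kz y b x (mt k') z) ^ 2 := by gcongr
              _ = ENNReal.ofReal (C1 ^ 2) * (Kz y b x (mt k') z) ^ 2 := by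
                  rw [mul_pow, ENNReal.ofReal_pow hC1.le]
        _ = ENNReal.ofReal (C1 ^ 2) *
              ∫⁻ k in D, ∑ z : RM m q, (Kz y b x (mt k) z) ^ 2 ∂(hm m) :=
            lintegral_const_mul' _ _ ENNReal.ofReal_ne_top
        _ ≤ ENNReal.ofReal (C1 ^ 2) * (ENNReal.ofReal C2 * ENNReal.ofReal (E * skw a)) := by
            refine mul_le_mul' le_rfl ((H2 y hy0 b n a k hS sel vs hsel x hxu).trans
              (mul_le_mul' le_rfl ?_))
            exact H3 b n a k hS (by rw [hbN]; exact hsh.1) (by rw [hbN]; exact hsh.2) Y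
              (by linarith) (hg.2 γ hγ n a k hS) y hy sel vs hsel
        _ = ENNReal.ofReal (C1 ^ 2 * (C2 * (E * skw a))) := by
            rw [ENNReal.ofReal_mul (by positivity : 0 ≤ C1 ^ 2), ENNReal.ofReal_mul hC2.le]
    · have h4 : ∀ k' : V m, ∑ z : RM m q, (PPz D y b x (mt k') z) ^ 2 = 0 := fun k' =>
        Finset.sum_eq_zero fun z _ => by
          rw [enz_PP0 hA m q h1 h2 D y b (mt k') x z hxu]
          simp
      simp only [h4, lintegral_zero]
      exact bot_le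
  calc Ez q D y b
      ≤ ∑ _x : RM m q, ENNReal.ofReal (C1 ^ 2 * (C2 * (E * skw a))) :=
        Finset.sum_le_sum fun x _ => hx x
    _ = ENNReal.ofReal ((q : ℝ) ^ (m ^ 2)) * ENNReal.ofReal (C1 ^ 2 * (C2 * (E * skw a))) := by
        rw [Finset.sum_const, Finset.card_univ, hcard, nsmul_eq_mul]
        congr 1
        rw [ENNReal.ofReal_pow (by positivity), ENNReal.ofReal_natCast]
        push_cast
        rfl
    _ = _ := by
        rw [← ENNReal.ofReal_mul (by positivity), ← ENNReal.ofReal_mul (by positivity)]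
        congr 1
        ring

theorem pf_ENZ (hH1 : T_H1Z) (hH2 : T_H2Z) (hEIN : T_EIN) (hEGY : T_EGY) (hVLM : T_VLM)
    (hSEX : T_SEX) (hDYM : T_DYM) (hA : T_ALZ) : T_ENZ := by
  intro m h1
  obtain ⟨C1, hC1, H1⟩ := hH1 m h1
  obtain ⟨C2, C0, hC2, hC0, H2⟩ := hH2 m h1
  obtain ⟨C3, K3, hC3, H3⟩ := hEGY m h1 C0 hC0
  obtain ⟨C4, K4, hC4, H4⟩ := hVLM m h1
  refine ⟨C1 ^ 2 * C2 * C3 * C4, K3 + K4, by positivity, ?_⟩
  intro q _ D h2 hD y Y hy hY
  have hlogY : 0 ≤ Real.log Y := Real.log_nonneg (by linarith)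
  have hlog : Real.log Y ≤ Real.log (y * Y) :=
    Real.log_le_log (by linarith) (by nlinarith)
  have hq0 : (0 : ℝ) < q := by
    have : 0 < q := by omega
    exact_mod_cast this
  have hy0 : 0 < y := by linarith
  set A : ℝ := (q : ℝ) ^ (m ^ 2) * (C1 ^ 2 * (C2 *
      (C3 * (1 + Real.log (y * Y)) ^ K3 * y ^ (2 * m) * (1 + y ^ 2 / (q : ℝ) ^ m) ^ m))) with hAdef
  have hA0 : 0 < A := by
    have : 0 < 1 + Real.log (y * Y) := by linarith
    positivity
  have hpt : ∀ g ∈ DY D Y, Ez q D y (mt g) ≤ ENNReal.ofReal A * Tht (mt g) := by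
    intro g hg
    have hA1 : ENNReal.ofReal A ≠ 0 := by
      rw [Ne, ENNReal.ofReal_eq_zero, not_le]
      exact hA0
    have h5 : Ez q D y (mt g) / ENNReal.ofReal A ≤ Tht (mt g) := by
      unfold Tht
      refine le_iInf fun γ => le_iInf fun hγ => le_iInf fun n => le_iInf fun a =>
        le_iInf fun k => le_iInf fun hS => ?_
      refine ENNReal.div_le_of_le_mul' ?_
      exact enz_pt hA hEIN hSEX m h1 C1 C2 C0 C3 K3 hC1 hC2 hC3 q D h2 hD
        (fun y hy g k x z hg hk => H1 q D h2 hD y hy g k x z hg hk)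
        (fun y hy b n a k hS sel vs hs x hx => by
          have h6 := H2 q D h2 hD y hy b n a k hS sel vs hs x hx
          exact h6)
        (fun b n a k hS hb1 hb2 Y hY hgap y hy sel vs hs => by
          have h6 := H3 q (by omega) b n a k hS hb1 hb2 Y hY hgap y hy sel vs hs
          exact h6)
        y Y hy hY g hg γ hγ n a k hS
    rw [ENNReal.div_le_iff' hA1 ENNReal.ofReal_ne_top] at h5
    exact h5
  calc ∫⁻ g in DY D Y, Ez q D y (mt g) ∂(hm m)
      ≤ ∫⁻ g in DY D Y, ENNReal.ofReal A * Tht (mt g) ∂(hm m) :=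
        setLIntegral_mono' (hDYM m D hD Y) hpt
    _ = ENNReal.ofReal A * ∫⁻ g in DY D Y, Tht (mt g) ∂(hm m) :=
        lintegral_const_mul' _ _ ENNReal.ofReal_ne_top
    _ ≤ ENNReal.ofReal A * ENNReal.ofReal (C4 * (1 + Real.log Y) ^ K4) :=
        mul_le_mul' le_rfl ((H4 D hD).2 Y hY)
    _ = ENNReal.ofReal (A * (C4 * (1 + Real.log Y) ^ K4)) := by
        rw [ENNReal.ofReal_mul hA0.le]
    _ ≤ _ := by
        refine ENNReal.ofReal_le_ofReal ?_
        have h7 : (1 + Real.log Y) ^ K4 ≤ (1 + Real.log (y * Y)) ^ K4 := by gcongr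
        calc A * (C4 * (1 + Real.log Y) ^ K4) ≤ A * (C4 * (1 + Real.log (y * Y)) ^ K4) := by
              gcongr
          _ = _ := by
              rw [hAdef, pow_add]
              ring

end Pool.Agent.H49.GZ
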