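import Pool.Agent.H34.GZ.Targets2

/-!
Row FTG of the board gz: the Fourier transform of a smooth test function decays and is bi-invariant.
-/

set_option autoImplicit false

namespace Pool.Agent.H49.GZ

open MeasureTheory Pool.Agent.H34.GM Pool.Agent.H34.GZ

/-- the coordinate `z i j` -/
private noncomputable def ftg_c (m : ℕ) (i j : Fin m) : V m →L[ℝ] ℝ :=
  (ContinuousLinearMap.proj (R := ℝ) (φ := fun _ : Fin m => ℝ) j).comp
    (ContinuousLinearMap.proj (R := ℝ) (φ := fun _ : Fin m => (Fin m → ℝ)) i)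

private lemma ftg_c_apply (m : ℕ) (i j : Fin m) (z : V m) : ftg_c m i j z = z i j := rfl

/-- the bilinear form `tr (w z)` -/
private noncomputable def ftg_L (m : ℕ) : V m →L[ℝ] V m →L[ℝ] ℝ :=
  ∑ a : Fin m, ∑ b : Fin m, (ftg_c m b a).smulRight (ftg_c m a b)

private lemma ftg_L_apply (m : ℕ) (z w : V m) :
    ftg_L m z w = ∑ a : Fin m, ∑ b : Fin m, z b a * w a b := by
  simp [ftg_L, ftg_c_apply]

private lemma ftg_tr (m : ℕ) (z : V m) (w : Mat m) :
    (w * mt z).trace = ftg_L m z (fun i j => w i j) := by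
  rw [ftg_L_apply, Matrix.trace]
  refine Finset.sum_congr rfl fun a _ => ?_
  rw [Matrix.diag_apply, Matrix.mul_apply]
  refine Finset.sum_congr rfl fun b _ => ?_
  exact mul_comm _ _

private lemma ftg_four (m : ℕ) (f : V m → ℂ) (w : V m) :
    VectorFourier.fourierIntegral Real.fourierChar (volume : Measure (V m))
      (ContinuousLinearMap.toLinearMap₁₂ (ftg_L m)) f w =
      ∫ z : V m, f z * ee (-(ftg_L m z w)) := by
  unfold VectorFourier.fourierIntegral
  refine integral_congr_ae (Filter.Eventually.of_forall fun z => ?_)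
  show Real.fourierChar (-(ftg_L m z w)) • f z = f z * ee (-(ftg_L m z w))
  rw [Circle.smul_def, smul_eq_mul, mul_comm, Real.fourierChar_apply]
  unfold ee
  congr 2
  push_cast
  ring

private lemma ftg_int (m : ℕ) (Φ : Mat m → ℂ) (h : TstS m Φ)
    (k p : ℕ) : Integrable (fun z : V m => ‖z‖ ^ k *
      ‖iteratedFDeriv ℝ p (fun z : V m => Φ (mt z)) z‖) := by
  have hc : Continuous (fun z : V m =>
      iteratedFDeriv ℝ p (fun z : V m => Φ (mt z)) z) :=
    ContDiff.continuous_iteratedFDeriv (by exact_mod_cast le_top) h.smooth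
  refine Continuous.integrable_of_hasCompactSupport ?_ ?_
  · exact (continuous_norm.pow k).mul hc.norm
  · exact ((h.comp.iteratedFDeriv (𝕜 := ℝ) p).norm).mul_left

private lemma ftg_eq (m : ℕ) (Φ : Mat m → ℂ) (w : Mat m) : ft Φ w =
    VectorFourier.fourierIntegral Real.fourierChar (volume : Measure (V m))
      (ContinuousLinearMap.toLinearMap₁₂ (ftg_L m)) (fun z : V m => Φ (mt z))
      (fun i j => w i j) := by
  rw [ftg_four]
  unfold ft
  refine integral_congr_ae (Filter.Eventually.of_forall fun z => ?_)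
  show _ * ee _ = _ * ee _
  rw [ftg_tr]

private lemma ftg_cont (m : ℕ) (Φ : Mat m → ℂ) (h : TstS m Φ) : Continuous (ft Φ) := by
  have hfi : Integrable (fun z : V m => Φ (mt z)) :=
    h.smooth.continuous.integrable_of_hasCompactSupport h.comp
  have hc := VectorFourier.fourierIntegral_continuous (e := Real.fourierChar)
      (μ := (volume : Measure (V m))) (L := ContinuousLinearMap.toLinearMap₁₂ (ftg_L m))
      Real.continuous_fourierChar (by
        show Continuous fun p : V m × V m => ftg_L m p.1 p.2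
        simp only [ftg_L_apply]
        fun_prop) hfi
  have h2 : ft Φ = (VectorFourier.fourierIntegral Real.fourierChar
        (volume : Measure (V m)) (ContinuousLinearMap.toLinearMap₁₂ (ftg_L m))
        (fun z : V m => Φ (mt z))) ∘ (fun (w : Mat m) => ((fun i j => w i j) : V m)) := by
    funext w
    exact ftg_eq m Φ w
  rw [h2]
  refine hc.comp ?_
  exact continuous_pi fun i => continuous_pi fun j => (continuous_apply_apply i j)

/-- the basic estimate -/
private lemma ftg_bas (m : ℕ) (hm : 1 ≤ m) (Φ : Mat m → ℂ) (h : TstS m Φ) (n : ℕ) :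
    ∃ B : ℝ, 0 ≤ B ∧ ∀ w : Mat m, sz w ^ n * ‖ft Φ w‖ ≤ B := by
  have hS0 : 0 ≤ ∑ p ∈ Finset.range (0 + 1) ×ˢ Finset.range (n + 1),
          ∫ v : V m, ‖v‖ ^ p.1 *
            ‖iteratedFDeriv ℝ p.2 (fun z : V m => Φ (mt z)) v‖ :=
    Finset.sum_nonneg fun p _ => integral_nonneg fun v => by positivity
  refine ⟨1 ^ n * 1 * (2 : ℝ) ^ n * ∑ p ∈ Finset.range (0 + 1) ×ˢ Finset.range (n + 1),
          ∫ v : V m, ‖v‖ ^ p.1 *
            ‖iteratedFDeriv ℝ p.2 (fun z : V m => Φ (mt z)) v‖, by positivity, fun w => ?_⟩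
  set W : V m := fun i j => w i j with hW
  have hsz : sz w = ‖W‖ := rfl
  rw [hsz]
  have hne : Nonempty (Fin m) := ⟨⟨0, by omega⟩⟩
  obtain ⟨i, hi⟩ := Finite.exists_max (fun i => ‖W i‖)
  obtain ⟨j, hj⟩ := Finite.exists_max (fun j => ‖W i j‖)
  have hWi : ‖W‖ ≤ |W i j| := by
    rw [pi_norm_le_iff_of_nonneg (abs_nonneg _)]
    intro i'
    refine (hi i').trans ?_
    rw [pi_norm_le_iff_of_nonneg (abs_nonneg _)]
    intro j'
    exact hj j'
  have h2 := VectorFourier.pow_mul_norm_iteratedFDeriv_fourierIntegral_le (ftg_L m)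
        (μ := (volume : Measure (V m))) (K := ⊤) (N := ⊤)
        (f := fun z : V m => Φ (mt z)) h.smooth
        (fun k p _ _ => ftg_int m Φ h k p) (k := 0) (n := n) le_top le_top
        (Pi.single j (Pi.single i 1)) W
  have hLv : ftg_L m (Pi.single j (Pi.single i 1)) W = W i j := by
    rw [ftg_L_apply]
    rw [Finset.sum_eq_single i, Finset.sum_eq_single j]
    · simp
    · intro b _ hb
      simp [Pi.single_eq_of_ne hb]
    · simp
    · intro a _ ha
      refine Finset.sum_eq_zero fun b _ => ?_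
      by_cases hbj : b = j
      · subst hbj
        simp [Pi.single_eq_of_ne ha]
      · simp [Pi.single_eq_of_ne hbj]
    · simp
  have hvn : ‖(Pi.single j (Pi.single i 1) : V m)‖ ≤ 1 := by
    rw [pi_norm_le_iff_of_nonneg zero_le_one]
    intro a
    rw [pi_norm_le_iff_of_nonneg zero_le_one]
    intro b
    by_cases ha : a = j
    · subst ha
      by_cases hb : b = i
      · subst hb
        simp
      · simp [Pi.single_eq_of_ne hb]
    · simp [Pi.single_eq_of_ne ha]
  rw [hLv, norm_iteratedFDeriv_zero, ← ftg_eq m Φ w] at h2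
  calc ‖W‖ ^ n * ‖ft Φ w‖ ≤ |W i j| ^ n * ‖ft Φ w‖ := by gcongr
    _ ≤ ‖(Pi.single j (Pi.single i 1) : V m)‖ ^ n * (2 * Real.pi * ‖ftg_L m‖) ^ 0 *
            (2 * ((0 : ℕ) : ℝ) + 2) ^ n * ∑ p ∈ Finset.range (0 + 1) ×ˢ Finset.range (n + 1),
          ∫ v : V m, ‖v‖ ^ p.1 *
            ‖iteratedFDeriv ℝ p.2 (fun z : V m => Φ (mt z)) v‖ := h2
    _ ≤ 1 ^ n * 1 * (2 : ℝ) ^ n * ∑ p ∈ Finset.range (0 + 1) ×ˢ Finset.range (n + 1),
          ∫ v : V m, ‖v‖ ^ p.1 *
            ‖iteratedFDeriv ℝ p.2 (fun z : V m => Φ (mt z)) v‖ := by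
        rw [pow_zero]
        have h7 : (2 * ((0 : ℕ) : ℝ) + 2) ^ n ≤ 2 ^ n := by simp
        gcongr

private lemma ftg_dec (m : ℕ) (hm : 1 ≤ m) (Φ : Mat m → ℂ) (h : TstS m Φ) (N : ℕ) :
    ∃ C : ℝ, 0 ≤ C ∧ ∀ w, ‖ft Φ w‖ ≤ C * (1 + sz w) ^ (-(N : ℝ)) := by
  obtain ⟨B0, hB0, h0⟩ := ftg_bas m hm Φ h 0
  obtain ⟨BN, hBN, hN⟩ := ftg_bas m hm Φ h N
  refine ⟨2 ^ N * (B0 + BN), by positivity, fun w => ?_⟩
  have hF0 := h0 w
  have hFN := hN w
  rw [pow_zero, one_mul] at hF0
  have hW0 : 0 ≤ sz w := norm_nonneg _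
  have hpw : (1 + sz w) ^ N ≤ 2 ^ N * (1 + sz w ^ N) := by
    rcases le_total (sz w) 1 with h | h
    · calc (1 + sz w) ^ N ≤ 2 ^ N := by
              gcongr
              linarith
          _ ≤ 2 ^ N * (1 + sz w ^ N) := by
              have : 0 ≤ sz w ^ N := by positivity
              nlinarith [pow_pos (show (0 : ℝ) < 2 by norm_num) N]
    · calc (1 + sz w) ^ N ≤ (2 * sz w) ^ N := by
              gcongr
              linarith
          _ = 2 ^ N * sz w ^ N := mul_pow _ _ _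
          _ ≤ 2 ^ N * (1 + sz w ^ N) := by
              gcongr
              linarith
  rw [Real.rpow_neg (by positivity), Real.rpow_natCast, ← div_eq_mul_inv,
      le_div_iff₀ (by positivity)]
  calc ‖ft Φ w‖ * (1 + sz w) ^ N ≤ ‖ft Φ w‖ * (2 ^ N * (1 + sz w ^ N)) := by gcongr
      _ = 2 ^ N * (‖ft Φ w‖ + sz w ^ N * ‖ft Φ w‖) := by ring
      _ ≤ 2 ^ N * (B0 + BN) := by gcongr

/-! ### invariance -/

private lemma ftg_orth (m : ℕ) (u : Mat m) (hu : u * u.transpose = 1) :
    u.det ≠ 0 ∧ |u.det| = 1 := by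
  have h1 : u.det * u.det = 1 := by
    have h2 := congrArg Matrix.det hu
    rwa [Matrix.det_mul, Matrix.det_transpose, Matrix.det_one] at h2
  refine ⟨fun h => by rw [h] at h1; norm_num at h1, ?_⟩
  have h3 : |u.det| * |u.det| = 1 := by rw [abs_mul_abs_self, h1]
  nlinarith [abs_nonneg u.det]

private lemma ftg_hm (m : ℕ) (hm1 : 1 ≤ m) (g : V m → ℂ)
    (hg : ∀ z, (mt z).det = 0 → g z = 0) :
    ∫ z, g z * ((|(mt z).det| ^ m : ℝ) : ℂ) ∂(hm m) = ∫ z, g z := by
  have hdet : Continuous (fun z : V m => (mt z).det) :=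
    Continuous.matrix_det (continuous_id : Continuous (fun z : V m => (mt z : Mat m)))
  have hme : Measurable (fun z : V m => ENNReal.ofReal ((|(mt z).det| ^ m)⁻¹)) :=
    ((hdet.abs.pow m).measurable.inv).ennreal_ofReal
  unfold hm
  rw [integral_withDensity_eq_integral_toReal_smul hme
    (Filter.Eventually.of_forall fun z => ENNReal.ofReal_lt_top)]
  refine integral_congr_ae (Filter.Eventually.of_forall fun z => ?_)
  show (ENNReal.ofReal ((|(mt z).det| ^ m)⁻¹)).toReal • (g z * ((|(mt z).det| ^ m : ℝ) : ℂ)) = g z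
  rw [ENNReal.toReal_ofReal (by positivity)]
  by_cases hz : (mt z).det = 0
  · rw [hg z hz]
    simp
  · have h1 : (|(mt z).det| ^ m : ℝ) ≠ 0 := pow_ne_zero _ (abs_ne_zero.mpr hz)
    have h2 : ((|(mt z).det| ^ m : ℝ) : ℂ) ≠ 0 := by exact_mod_cast h1
    rw [Complex.real_smul, Complex.ofReal_inv]
    field_simp

private lemma ftg_left (hH : T_HAC) (m : ℕ) (h1 : 1 ≤ m) (u : Mat m)
    (hu : u * u.transpose = 1) (g : V m → ℂ) (hg : ∀ z, (mt z).det = 0 → g z = 0) :
    ∫ z : V m, g (fun i j => (u * mt z) i j) = ∫ z, g z := by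
  obtain ⟨hu0, hu1⟩ := ftg_orth m u hu
  rw [← ftg_hm m h1 g hg, ← ((hH m h1).1 u hu0 (fun z => g z * ((|(mt z).det| ^ m : ℝ) : ℂ))).1,
    ← ftg_hm m h1 (fun z => g (fun i j => (u * mt z) i j))]
  · refine integral_congr_ae (Filter.Eventually.of_forall fun z => ?_)
    show g (fun i j => (u * mt z) i j) * ((|(mt z).det| ^ m : ℝ) : ℂ) =
      g (fun i j => (u * mt z) i j) * ((|(u * mt z).det| ^ m : ℝ) : ℂ)
    rw [Matrix.det_mul, abs_mul, hu1, one_mul]
  · intro z hz
    refine hg _ ?_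
    show (u * mt z).det = 0
    rw [Matrix.det_mul, hz, mul_zero]

private lemma ftg_right (hH : T_HAC) (m : ℕ) (h1 : 1 ≤ m) (u : Mat m)
    (hu : u * u.transpose = 1) (g : V m → ℂ) (hg : ∀ z, (mt z).det = 0 → g z = 0) :
    ∫ z : V m, g (fun i j => (mt z * u) i j) = ∫ z, g z := by
  obtain ⟨hu0, hu1⟩ := ftg_orth m u hu
  rw [← ftg_hm m h1 g hg, ← ((hH m h1).1 u hu0 (fun z => g z * ((|(mt z).det| ^ m : ℝ) : ℂ))).2,
    ← ftg_hm m h1 (fun z => g (fun i j => (mt z * u) i j))]
  · refine integral_congr_ae (Filter.Eventually.of_forall fun z => ?_)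
    show g (fun i j => (mt z * u) i j) * ((|(mt z).det| ^ m : ℝ) : ℂ) =
      g (fun i j => (mt z * u) i j) * ((|(mt z * u).det| ^ m : ℝ) : ℂ)
    rw [Matrix.det_mul, abs_mul, hu1, mul_one]
  · intro z hz
    refine hg _ ?_
    show (mt z * u).det = 0
    rw [Matrix.det_mul, hz, zero_mul]

private lemma ftg_zero (m : ℕ) (Φ : Mat m → ℂ) (h : TstS m Φ) (z : Mat m) (hz : z.det = 0) :
    Φ z = 0 := by
  by_contra hne
  obtain ⟨c, hc, hs⟩ := h.supp
  have h1 := (hs z hne).2
  rw [hz, abs_zero] at h1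
  have h2 : 0 < c⁻¹ := inv_pos.mpr hc
  linarith

private lemma ftg_ftl (hH : T_HAC) (m : ℕ) (h1 : 1 ≤ m) (Φ : Mat m → ℂ) (h : TstS m Φ)
    (u : Mat m) (hu : u * u.transpose = 1) (w : Mat m) : ft Φ (u * w) = ft Φ w := by
  unfold ft
  rw [← ftg_right hH m h1 u hu (fun z : V m => Φ (mt z) * ee (-(w * mt z).trace))]
  · refine integral_congr_ae (Filter.Eventually.of_forall fun z => ?_)
    show Φ (mt z) * ee (-(u * w * mt z).trace) = Φ (mt z * u) * ee (-(w * (mt z * u)).trace)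
    rw [h.right u hu, ← Matrix.mul_assoc w (mt z) u, Matrix.trace_mul_comm (w * mt z) u,
      Matrix.mul_assoc u w (mt z)]
  · intro z hz
    show Φ (mt z) * ee (-(w * mt z).trace) = 0
    rw [ftg_zero m Φ h _ hz, zero_mul]

private lemma ftg_ftr (hH : T_HAC) (m : ℕ) (h1 : 1 ≤ m) (Φ : Mat m → ℂ) (h : TstS m Φ)
    (u : Mat m) (hu : u * u.transpose = 1) (w : Mat m) : ft Φ (w * u) = ft Φ w := by
  unfold ft
  rw [← ftg_left hH m h1 u hu (fun z : V m => Φ (mt z) * ee (-(w * mt z).trace))]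
  · refine integral_congr_ae (Filter.Eventually.of_forall fun z => ?_)
    show Φ (mt z) * ee (-(w * u * mt z).trace) = Φ (u * mt z) * ee (-(w * (u * mt z)).trace)
    rw [h.left u hu, Matrix.mul_assoc w u (mt z)]
  · intro z hz
    show Φ (mt z) * ee (-(w * mt z).trace) = 0
    rw [ftg_zero m Φ h _ hz, zero_mul]

theorem pf_FTG (hH : T_HAC) : T_FTG := by
  intro m hm Φ h
  have hD : Dec m (ft Φ) :=
    { cont := ftg_cont m Φ h
      dec := ftg_dec m hm Φ h
      left := fun u hu z => ftg_ftl hH m hm Φ h u hu z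
      right := fun u hu z => ftg_ftr hH m hm Φ h u hu z }
  refine ⟨?_, hD⟩
  exact
    { cont := Complex.continuous_conj.comp hD.cont
      dec := fun N => by
        obtain ⟨C, hC, hb⟩ := hD.dec N
        refine ⟨C, hC, fun z => ?_⟩
        rw [RCLike.norm_conj]
        exact hb z
      left := fun u hu z => by rw [hD.left u hu z]
      right := fun u hu z => by rw [hD.right u hu z] }

end Pool.Agent.H49.GZ
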